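import Mathlib

/-! Blichfeldt's bound: a unimodular lattice of rank at most seven has a vector of norm `< 2`. -/

namespace Q272.Ic

open MeasureTheory Module

/-- Blichfeldt's inequality. -/
theorem weight_sum {E : Type*} [NormedAddCommGroup E] [InnerProductSpace ℝ E] (s : Finset E)
    (y : E) (h1 : ∀ x ∈ s, 0 < 1 - ‖x - y‖ ^ 2)
    (h2 : ∀ x ∈ s, ∀ x' ∈ s, x ≠ x' → 2 ≤ ‖x - x'‖ ^ 2) :
    ∑ x ∈ s, (1 - ‖x - y‖ ^ 2) ≤ 1 := by
  classical
  rcases s.eq_empty_or_nonempty with rfl | hne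
  · simp
  set w : E → ℝ := fun x => 1 - ‖x - y‖ ^ 2 with hw
  set W := ∑ x ∈ s, w x with hW
  have hexp : (0:ℝ) ≤ ∑ x ∈ s, ∑ x' ∈ s, w x * w x' * inner ℝ (x - y) (x' - y) := by
    have h3 : inner ℝ (∑ x ∈ s, w x • (x - y)) (∑ x ∈ s, w x • (x - y)) =
        ∑ x ∈ s, ∑ x' ∈ s, w x * w x' * inner ℝ (x - y) (x' - y) := by
      rw [sum_inner]
      refine Finset.sum_congr rfl fun x _ => ?_
      rw [inner_sum]
      refine Finset.sum_congr rfl fun x' _ => ?_
      rw [real_inner_smul_left, real_inner_smul_right]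
      ring
    rw [← h3]
    exact real_inner_self_nonneg
  have hterm : ∀ x ∈ s, ∀ x' ∈ s, w x * w x' * inner ℝ (x - y) (x' - y) ≤
      -(w x * w x' * (w x + w x') / 2) + if x = x' then w x ^ 2 else 0 := by
    intro x hx x' hx'
    have hwx : 0 < w x := h1 x hx
    have hwx' : 0 < w x' := h1 x' hx'
    have hnx : ‖x - y‖ ^ 2 = 1 - w x := by simp only [hw]; ring
    have hnx' : ‖x' - y‖ ^ 2 = 1 - w x' := by simp only [hw]; ring
    split_ifs with heq
    · subst heq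
      rw [real_inner_self_eq_norm_sq, hnx]
      nlinarith
    · have h4 := h2 x hx x' hx' heq
      have h5 : ‖x - x'‖ ^ 2 = ‖x - y‖ ^ 2 - 2 * inner ℝ (x - y) (x' - y) + ‖x' - y‖ ^ 2 := by
        rw [← norm_sub_sq_real]
        congr 2
        abel
      rw [h5, hnx, hnx'] at h4
      have h6 : inner ℝ (x - y) (x' - y) ≤ -((w x + w x') / 2) := by linarith
      have h7 := mul_le_mul_of_nonneg_left h6 (mul_pos hwx hwx').le
      rw [add_zero]
      linarith
  have hsum : ∑ x ∈ s, ∑ x' ∈ s, w x * w x' * inner ℝ (x - y) (x' - y) ≤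
      (1 - W) * ∑ x ∈ s, w x ^ 2 := by
    refine (Finset.sum_le_sum fun x hx => Finset.sum_le_sum fun x' hx' =>
      hterm x hx x' hx').trans (le_of_eq ?_)
    have h8 : ∀ x ∈ s, ∑ x' ∈ s, (-(w x * w x' * (w x + w x') / 2) +
        if x = x' then w x ^ 2 else 0) =
        -(w x ^ 2 * W / 2) - (w x * ∑ x' ∈ s, w x' ^ 2) / 2 + w x ^ 2 := by
      intro x hx
      rw [Finset.sum_add_distrib, Finset.sum_ite_eq, if_pos hx]
      congr 1
      have h9 : ∀ x' ∈ s, -(w x * w x' * (w x + w x') / 2) =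
          -(w x ^ 2 / 2) * w x' - (w x / 2) * w x' ^ 2 := fun x' _ => by ring
      rw [Finset.sum_congr rfl h9, Finset.sum_sub_distrib, ← Finset.mul_sum, ← Finset.mul_sum]
      ring
    rw [Finset.sum_congr rfl h8, Finset.sum_add_distrib, Finset.sum_sub_distrib,
      Finset.sum_neg_distrib]
    rw [← Finset.sum_div, ← Finset.sum_div, ← Finset.sum_mul, ← Finset.sum_mul]
    ring
  have hpos : 0 < ∑ x ∈ s, w x ^ 2 := by
    apply Finset.sum_pos _ hne
    intro x hx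
    have := h1 x hx
    positivity
  have h10 : 0 ≤ (1 - W) * ∑ x ∈ s, w x ^ 2 := hexp.trans hsum
  by_contra hcon
  rw [not_le] at hcon
  have : (1 - W) * ∑ x ∈ s, w x ^ 2 < 0 := mul_neg_of_neg_of_pos (by linarith) hpos
  linarith

theorem radial_integral {n : ℕ} (hn : 1 ≤ n) :
    ∫ y in Set.Ioi (0:ℝ), y ^ (n - 1) • (max (1 - y ^ 2) 0 : ℝ) = 1 / (n : ℝ) - 1 / (n + 2) := by
  have h1 : ∫ y in Set.Ioi (0:ℝ), y ^ (n - 1) • (max (1 - y ^ 2) 0 : ℝ) =
      ∫ y in Set.Ioc (0:ℝ) 1, y ^ (n - 1) • (max (1 - y ^ 2) 0 : ℝ) := by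
    apply setIntegral_eq_of_subset_of_forall_sdiff_eq_zero measurableSet_Ioi
      (fun y hy => hy.1)
    rintro y ⟨hy1, hy2⟩
    have hy1' : (0:ℝ) < y := hy1
    have hy : 1 < y := by
      by_contra hcon
      exact hy2 ⟨hy1, not_lt.1 hcon⟩
    rw [max_eq_right (by nlinarith), smul_zero]
  rw [h1]
  have h2 : ∫ y in Set.Ioc (0:ℝ) 1, y ^ (n - 1) • (max (1 - y ^ 2) 0 : ℝ) =
      ∫ y in Set.Ioc (0:ℝ) 1, (y ^ (n - 1) - y ^ (n + 1)) := by
    apply setIntegral_congr_fun measurableSet_Ioc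
    intro y hy
    have h3 : 0 ≤ 1 - y ^ 2 := by nlinarith [hy.1, hy.2]
    simp only [smul_eq_mul]
    rw [max_eq_left h3]
    have h4 : y ^ (n + 1) = y ^ (n - 1) * y ^ 2 := by
      rw [← pow_add]; congr 1; omega
    rw [h4]; ring
  rw [h2, ← intervalIntegral.integral_of_le zero_le_one,
    intervalIntegral.integral_sub (by simp) (by simp), integral_pow, integral_pow]
  have h5 : ((n - 1 : ℕ) : ℝ) + 1 = n := by
    rw [Nat.cast_sub hn]; push_cast; ring
  rw [h5]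
  push_cast
  simp
  ring

/-- The integral over Euclidean space. -/
theorem euclid_integral {n : ℕ} (hn : 1 ≤ n) :
    ∫ z : EuclideanSpace ℝ (Fin n), max (1 - ‖z‖ ^ 2) 0 =
      (Real.sqrt Real.pi ^ n / Real.Gamma (n / 2 + 1)) * (2 / (n + 2)) := by
  have : Nonempty (Fin n) := ⟨⟨0, hn⟩⟩
  have h := integral_fun_norm_addHaar (volume : Measure (EuclideanSpace ℝ (Fin n)))
    (fun y : ℝ => max (1 - y ^ 2) 0)
  rw [h, finrank_euclideanSpace, Fintype.card_fin, radial_integral hn]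
  have hv : (volume : Measure (EuclideanSpace ℝ (Fin n))).real (Metric.ball 0 1) =
      Real.sqrt Real.pi ^ n / Real.Gamma (n / 2 + 1) := by
    rw [measureReal_def, EuclideanSpace.volume_ball]
    simp only [ENNReal.ofReal_one, one_pow, one_mul, Fintype.card_fin]
    rw [ENNReal.toReal_ofReal]
    have := Real.Gamma_pos_of_pos (by positivity : (0:ℝ) < n / 2 + 1)
    positivity
  rw [hv, nsmul_eq_mul, smul_eq_mul]
  have hn' : (0:ℝ) < n := by exact_mod_cast hn
  field_simp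
  ring

theorem const_gt {n : ℕ} (hn : 1 ≤ n) (hn7 : n ≤ 7) :
    1 < (Real.sqrt Real.pi ^ n / Real.Gamma (n / 2 + 1)) * (2 / (n + 2)) := by
  have hpi := Real.pi_gt_d2
  have hpi0 := Real.pi_pos
  have hs : Real.sqrt Real.pi ^ 2 = Real.pi := Real.sq_sqrt hpi0.le
  have hs0 : 0 < Real.sqrt Real.pi := Real.sqrt_pos.2 hpi0
  have g12 : Real.Gamma (1 / 2) = Real.sqrt Real.pi := Real.Gamma_one_half_eq
  have g32 : Real.Gamma (3 / 2) = Real.sqrt Real.pi / 2 := by
    rw [show (3 / 2 : ℝ) = 1 / 2 + 1 by norm_num, Real.Gamma_add_one (by norm_num), g12]; ring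
  have g52 : Real.Gamma (5 / 2) = 3 / 4 * Real.sqrt Real.pi := by
    rw [show (5 / 2 : ℝ) = 3 / 2 + 1 by norm_num, Real.Gamma_add_one (by norm_num), g32]; ring
  have g72 : Real.Gamma (7 / 2) = 15 / 8 * Real.sqrt Real.pi := by
    rw [show (7 / 2 : ℝ) = 5 / 2 + 1 by norm_num, Real.Gamma_add_one (by norm_num), g52]; ring
  have g92 : Real.Gamma (9 / 2) = 105 / 16 * Real.sqrt Real.pi := by
    rw [show (9 / 2 : ℝ) = 7 / 2 + 1 by norm_num, Real.Gamma_add_one (by norm_num), g72]; ring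
  have g2 : Real.Gamma 2 = 1 := by
    rw [show (2 : ℝ) = 1 + 1 by norm_num, Real.Gamma_add_one (by norm_num), Real.Gamma_one]; ring
  have g3 : Real.Gamma 3 = 2 := by
    rw [show (3 : ℝ) = 2 + 1 by norm_num, Real.Gamma_add_one (by norm_num), g2]; ring
  have g4 : Real.Gamma 4 = 6 := by
    rw [show (4 : ℝ) = 3 + 1 by norm_num, Real.Gamma_add_one (by norm_num), g3]; ring
  have h3 : Real.pi ^ 2 > 9.8 := by nlinarith
  have h4 : Real.pi ^ 3 > 30.9 := by nlinarith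
  set q := Real.sqrt Real.pi with hq
  interval_cases n
  · norm_num [g32]
    field_simp
    norm_num
  · norm_num [g2]
    rw [hs]; linarith
  · norm_num [g52]
    rw [show q ^ 3 / (3 / 4 * q) = q ^ 2 * (4 / 3) by field_simp, hs]
    linarith
  · norm_num [g3]
    rw [show q ^ 4 = (q ^ 2) ^ 2 by ring, hs]
    linarith
  · norm_num [g72]
    rw [show q ^ 5 / (15 / 8 * q) = (q ^ 2) ^ 2 * (8 / 15) by field_simp, hs]
    linarith
  · norm_num [g4]
    rw [show q ^ 6 = (q ^ 2) ^ 3 by ring, hs]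
    linarith
  · norm_num [g92]
    rw [show q ^ 7 / (105 / 16 * q) = (q ^ 2) ^ 3 * (16 / 105) by field_simp, hs]
    linarith

theorem lintegral_gt {n : ℕ} (hn : 1 ≤ n) (hn7 : n ≤ 7) :
    1 < ∫⁻ z : Fin n → ℝ, ENNReal.ofReal (1 - ∑ i, z i ^ 2) := by
  have h1 : ∫⁻ z : Fin n → ℝ, ENNReal.ofReal (1 - ∑ i, z i ^ 2) =
      ∫⁻ z : EuclideanSpace ℝ (Fin n), ENNReal.ofReal (max (1 - ‖z‖ ^ 2) 0) := by
    rw [← (PiLp.volume_preserving_toLp (Fin n)).lintegral_comp (by fun_prop)]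
    congr 1
    funext z
    rw [EuclideanSpace.norm_eq, Real.sq_sqrt (Finset.sum_nonneg fun i _ => by positivity)]
    simp only [Real.norm_eq_abs, sq_abs]
    rcases le_total (1 - ∑ i, z i ^ 2) 0 with h | h
    · rw [max_eq_right h, ENNReal.ofReal_zero, ENNReal.ofReal_of_nonpos h]
    · rw [max_eq_left h]
  rw [h1]
  have h2 := euclid_integral hn
  have hnn : 0 ≤ᵐ[volume] fun z : EuclideanSpace ℝ (Fin n) => max (1 - ‖z‖ ^ 2) 0 :=
    Filter.Eventually.of_forall fun z => le_max_right (1 - ‖z‖ ^ 2) (0:ℝ)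
  rw [integral_eq_lintegral_of_nonneg_ae hnn (by fun_prop)] at h2
  have h3 := const_gt hn hn7
  rw [← h2] at h3
  by_contra hcon
  rw [not_lt] at hcon
  have h4 := ENNReal.toReal_mono ENNReal.one_ne_top hcon
  rw [ENNReal.toReal_one] at h4
  linarith

end Q272.Ic
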