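import Pool.Agent.Q272.Ic.Short

/-! Extending icubes in `ℤ^8`. -/

namespace Q272.Ic

open Module Matrix

/-- Integer vectors of length eight. -/
abbrev Z8 := Fin 8 → ℤ

/-- The dual lattice for the form `x ⬝ᵥ y / l`. -/
def dual (l : ℤ) (X : Submodule ℤ Z8) : Submodule ℤ Z8 where
  carrier := {x | ∀ y ∈ X, l ∣ x ⬝ᵥ y}
  add_mem' := by
    intro a b ha hb y hy
    rw [add_dotProduct]
    exact dvd_add (ha y hy) (hb y hy)
  zero_mem' := by
    intro y _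
    rw [zero_dotProduct]
    exact dvd_zero _
  smul_mem' := by
    intro c x hx y hy
    rw [smul_dotProduct, smul_eq_mul]
    exact Dvd.dvd.mul_left (hx y hy) c

theorem mem_dual {l : ℤ} {X : Submodule ℤ Z8} {x : Z8} : x ∈ dual l X ↔ ∀ y ∈ X, l ∣ x ⬝ᵥ y :=
  Iff.rfl

theorem dual_anti {l : ℤ} {X Y : Submodule ℤ Z8} (h : X ≤ Y) : dual l Y ≤ dual l X :=
  fun _ hx y hy => hx y (h hy)

theorem smul_mem_dual {l : ℤ} (X : Submodule ℤ Z8) (x : Z8) : l • x ∈ dual l X := by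
  intro y _
  rw [smul_dotProduct, smul_eq_mul]
  exact dvd_mul_right _ _

/-- Separation by a character. -/
theorem exists_sep {l : ℤ} (hl : 0 < l) {X : Submodule ℤ Z8} (hX : ∀ x, l • x ∈ X) {m : Z8}
    (hm : m ∉ X) : ∃ y : Z8, (∀ z ∈ X, l ∣ z ⬝ᵥ y) ∧ ¬ l ∣ m ⬝ᵥ y := by
  have hne : (Submodule.Quotient.mk m : Z8 ⧸ X) ≠ 0 := by
    rw [Ne, Submodule.Quotient.mk_eq_zero]
    exact hm
  obtain ⟨c, hc⟩ := CharacterModule.exists_character_apply_ne_zero_of_ne_zero hne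
  have hlq : (0:ℚ) < (l : ℚ) := by exact_mod_cast hl
  -- the values on basis vectors
  have hy : ∀ i : Fin 8, ∃ y : ℤ, c (Submodule.Quotient.mk (Pi.single i 1) : Z8 ⧸ X) =
      (((y : ℚ) / l : ℚ) : AddCircle (1:ℚ)) := by
    intro i
    obtain ⟨q, hq⟩ := QuotientAddGroup.mk_surjective
      (c (Submodule.Quotient.mk (Pi.single i 1) : Z8 ⧸ X))
    have h1 : l • c (Submodule.Quotient.mk (Pi.single i 1) : Z8 ⧸ X) = 0 := by
      rw [← map_zsmul]
      have h2 : (l • (Submodule.Quotient.mk (Pi.single i 1) : Z8 ⧸ X)) = 0 := by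
        rw [← Submodule.Quotient.mk_smul, Submodule.Quotient.mk_eq_zero]
        exact hX _
      rw [h2, map_zero]
    have h3 : ((l • q : ℚ) : AddCircle (1:ℚ)) = 0 := by
      rw [← h1, ← hq]; rfl
    rw [AddCircle.coe_eq_zero_iff] at h3
    obtain ⟨n, hn⟩ := h3
    refine ⟨n, ?_⟩
    rw [← hq]
    have h4 : q = (n : ℚ) / l := by
      rw [eq_div_iff hlq.ne']
      simp only [zsmul_eq_mul, mul_one] at hn
      linarith
    rw [h4]
  choose y hy using hy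
  have hval : ∀ z : Z8, c (Submodule.Quotient.mk z : Z8 ⧸ X) =
      ((((z ⬝ᵥ y : ℤ) : ℚ) / l : ℚ) : AddCircle (1:ℚ)) := by
    intro z
    have h5 : (Submodule.Quotient.mk z : Z8 ⧸ X) =
        ∑ i, z i • (Submodule.Quotient.mk (Pi.single i 1) : Z8 ⧸ X) := by
      have h6 : z = ∑ i, z i • (Pi.single i 1 : Z8) := by
        ext j
        simp [Finset.sum_apply, Pi.single_apply]
      conv_lhs => rw [h6]
      rw [← Submodule.mkQ_apply, map_sum]
      refine Finset.sum_congr rfl fun i _ => ?_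
      rw [map_smul]; rfl
    rw [h5, map_sum]
    have h7 : ∀ i ∈ Finset.univ, c (z i • (Submodule.Quotient.mk (Pi.single i 1) : Z8 ⧸ X)) =
        (((z i : ℚ) * ((y i : ℚ) / l) : ℚ) : AddCircle (1:ℚ)) := by
      intro i _
      rw [map_zsmul, hy i, ← AddCircle.coe_zsmul, zsmul_eq_mul]
    rw [Finset.sum_congr rfl h7]
    have h8 : (((z ⬝ᵥ y : ℤ) : ℚ) / l) = ∑ i, (z i : ℚ) * ((y i : ℚ) / l) := by
      rw [dotProduct]
      push_cast
      rw [Finset.sum_div]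
      exact Finset.sum_congr rfl fun i _ => by rw [mul_div_assoc]
    rw [h8]
    exact (map_sum (QuotientAddGroup.mk' (AddSubgroup.zmultiples (1:ℚ)))
      (fun i => (z i : ℚ) * ((y i : ℚ) / l)) Finset.univ).symm
  have hdvd : ∀ z : Z8, c (Submodule.Quotient.mk z : Z8 ⧸ X) = 0 ↔ l ∣ z ⬝ᵥ y := by
    intro z
    rw [hval, AddCircle.coe_eq_zero_iff]
    constructor
    · rintro ⟨n, hn⟩
      refine ⟨n, ?_⟩
      simp only [zsmul_eq_mul, mul_one] at hn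
      rw [eq_div_iff hlq.ne'] at hn
      have : ((n * l : ℤ) : ℚ) = ((z ⬝ᵥ y : ℤ) : ℚ) := by push_cast; exact hn
      have h9 : n * l = z ⬝ᵥ y := by exact_mod_cast this
      rw [← h9]; ring
    · rintro ⟨n, hn⟩
      refine ⟨n, ?_⟩
      simp only [zsmul_eq_mul, mul_one]
      rw [eq_div_iff hlq.ne', hn]
      push_cast; ring
  refine ⟨y, fun z hz => ?_, fun h => hc ((hdvd m).2 h)⟩
  rw [← hdvd, (Submodule.Quotient.mk_eq_zero X).2 hz, map_zero]

theorem dual_dual {l : ℤ} (hl : 0 < l) {X : Submodule ℤ Z8} (hX : ∀ x, l • x ∈ X) :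
    dual l (dual l X) ≤ X := by
  intro m hm
  by_contra hcon
  obtain ⟨y, hy1, hy2⟩ := exists_sep hl hX hcon
  apply hy2
  apply hm
  intro z hz
  rw [dotProduct_comm]
  exact hy1 z hz

theorem dual_inf {l : ℤ} (hl : 0 < l) {A B : Submodule ℤ Z8} (hA : ∀ x, l • x ∈ A)
    (hB : ∀ x, l • x ∈ B) : dual l (A ⊓ B) ≤ dual l A ⊔ dual l B := by
  intro m hm
  by_contra hcon
  obtain ⟨y, hy1, hy2⟩ := exists_sep hl (X := dual l A ⊔ dual l B)
    (fun x => Submodule.mem_sup_left (smul_mem_dual A x)) hcon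
  apply hy2
  apply hm
  refine ⟨dual_dual hl hA ?_, dual_dual hl hB ?_⟩
  · intro z hz
    rw [dotProduct_comm]
    exact hy1 z (Submodule.mem_sup_left hz)
  · intro z hz
    rw [dotProduct_comm]
    exact hy1 z (Submodule.mem_sup_right hz)

/-- The orthogonal-similarity matrix built from four squares. -/
def Tm (a b c d : ℤ) : Matrix (Fin 8) (Fin 8) ℤ :=
  !![a, -b, -c, -d, 0, 0, 0, 0;
     b, a, -d, c, 0, 0, 0, 0;
     c, d, a, -b, 0, 0, 0, 0;
     d, -c, b, a, 0, 0, 0, 0;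
     0, 0, 0, 0, a, -b, -c, -d;
     0, 0, 0, 0, b, a, -d, c;
     0, 0, 0, 0, c, d, a, -b;
     0, 0, 0, 0, d, -c, b, a]

theorem Tm_mul (a b c d : ℤ) :
    (Tm a b c d)ᵀ * Tm a b c d = (a ^ 2 + b ^ 2 + c ^ 2 + d ^ 2) • (1 : Matrix (Fin 8) (Fin 8) ℤ) := by
  ext i j
  fin_cases i <;> fin_cases j <;>
    simp [Tm, Matrix.mul_apply, Fin.sum_univ_eight, Matrix.one_apply] <;> ring

theorem Tm_mul' (a b c d : ℤ) :
    Tm a b c d * (Tm a b c d)ᵀ = (a ^ 2 + b ^ 2 + c ^ 2 + d ^ 2) • (1 : Matrix (Fin 8) (Fin 8) ℤ) := by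
  ext i j
  fin_cases i <;> fin_cases j <;>
    simp [Tm, Matrix.mul_apply, Fin.sum_univ_eight, Matrix.one_apply] <;> ring

/-- A self-dual lattice. -/
theorem exists_selfdual {l : ℤ} (hl : 0 < l) : ∃ U : Submodule ℤ Z8, (∀ x, l • x ∈ U) ∧
    U ≤ dual l U ∧ dual l U ≤ U := by
  obtain ⟨a, b, c, d, habcd⟩ := Nat.sum_four_squares l.toNat
  have hsum : (a : ℤ) ^ 2 + (b : ℤ) ^ 2 + (c : ℤ) ^ 2 + (d : ℤ) ^ 2 = l := by
    have : ((a ^ 2 + b ^ 2 + c ^ 2 + d ^ 2 : ℕ) : ℤ) = (l.toNat : ℤ) := by rw [habcd]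
    push_cast at this
    rw [this, Int.toNat_of_nonneg hl.le]
  set T := Tm a b c d with hT
  have h1 : Tᵀ * T = l • (1 : Matrix (Fin 8) (Fin 8) ℤ) := by rw [hT, Tm_mul, hsum]
  have h2 : T * Tᵀ = l • (1 : Matrix (Fin 8) (Fin 8) ℤ) := by rw [hT, Tm_mul', hsum]
  have h2' : ∀ x : Z8, T *ᵥ (Tᵀ *ᵥ x) = l • x := by
    intro x
    rw [Matrix.mulVec_mulVec, h2, Matrix.smul_mulVec, Matrix.one_mulVec]
  refine ⟨LinearMap.range T.mulVecLin, ?_, ?_, ?_⟩
  · intro x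
    exact ⟨Tᵀ *ᵥ x, h2' x⟩
  · rintro _ ⟨x, rfl⟩ _ ⟨y, rfl⟩
    simp only [Matrix.mulVecLin_apply]
    rw [Matrix.dotProduct_mulVec, Matrix.vecMul_mulVec, h1, ← Matrix.mulVec_transpose]
    rw [Matrix.transpose_smul, Matrix.transpose_one, Matrix.smul_mulVec, Matrix.one_mulVec,
      smul_dotProduct, smul_eq_mul]
    exact dvd_mul_right _ _
  · intro x hx
    have h3 : ∀ i, l ∣ (Tᵀ *ᵥ x) i := by
      intro i
      have h4 := hx (T *ᵥ Pi.single i 1) ⟨Pi.single i 1, rfl⟩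
      rw [Matrix.dotProduct_mulVec, dotProduct_single_one, ← Matrix.mulVec_transpose] at h4
      exact h4
    choose w hw using h3
    have h5 : Tᵀ *ᵥ x = l • w := by
      ext i
      rw [hw i]; simp
    have h6 : l • x = l • (T *ᵥ w) := by
      rw [← h2' x, h5, Matrix.mulVec_smul]
    refine ⟨w, ?_⟩
    rw [Matrix.mulVecLin_apply]
    ext i
    have h7 := congrFun h6 i
    simp only [Pi.smul_apply, smul_eq_mul] at h7
    exact (mul_left_cancel₀ hl.ne' h7).symm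

end Q272.Ic
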