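import Pool.Agent.Q272.Ic.Blich

/-! Short vectors in unimodular lattices of rank at most seven. -/

namespace Q272.Ic

open MeasureTheory Module

theorem short_vector {n : ℕ} (hn : 1 ≤ n) (hn7 : n ≤ 7) (A : Matrix (Fin n) (Fin n) ℝ)
    (hne : A.det ≠ 0) (hdet : |A.det| ≤ 1) :
    ∃ x : Fin n → ℤ, x ≠ 0 ∧ ∑ j, (∑ i, (x i : ℝ) * A i j) ^ 2 < 2 := by
  classical
  by_contra hcon
  have hmin : ∀ x : Fin n → ℤ, x ≠ 0 → 2 ≤ ∑ j, (∑ i, (x i : ℝ) * A i j) ^ 2 := by
    intro x hx
    by_contra h
    exact hcon ⟨x, hx, not_le.1 h⟩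
  have hli : LinearIndependent ℝ (fun i => A i) :=
    Matrix.linearIndependent_rows_of_det_ne_zero hne
  have : Nonempty (Fin n) := ⟨⟨0, hn⟩⟩
  set b : Basis (Fin n) ℝ (Fin n → ℝ) :=
    basisOfLinearIndependentOfCardEqFinrank hli (by simp) with hb
  have hbA : ∀ i, b i = A i := by
    intro i
    rw [hb, coe_basisOfLinearIndependentOfCardEqFinrank]
  have hvol : volume (ZSpan.fundamentalDomain b) ≤ 1 := by
    rw [ZSpan.volume_fundamentalDomain]
    have h1 : Matrix.of b = A := by
      ext i j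
      rw [Matrix.of_apply, hbA]
    rw [h1]
    calc ENNReal.ofReal |A.det| ≤ ENNReal.ofReal 1 := ENNReal.ofReal_le_ofReal hdet
      _ = 1 := ENNReal.ofReal_one
  set L := (Submodule.span ℤ (Set.range b)).toAddSubgroup with hL
  have hfd := ZSpan.isAddFundamentalDomain' b (volume : Measure (Fin n → ℝ))
  -- the norm of a nonzero lattice vector
  have hLmin : ∀ g : L, g ≠ 0 → 2 ≤ ∑ j, (g : Fin n → ℝ) j ^ 2 := by
    intro g hg
    have hmem : (g : Fin n → ℝ) ∈ Submodule.span ℤ (Set.range b) := g.2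
    rw [Submodule.mem_span_range_iff_exists_fun] at hmem
    obtain ⟨x, hx⟩ := hmem
    have hx0 : x ≠ 0 := by
      rintro rfl
      apply hg
      apply Subtype.ext
      rw [← hx]
      simp
    have h2 := hmin x hx0
    have h3 : ∀ j, (g : Fin n → ℝ) j = ∑ i, (x i : ℝ) * A i j := by
      intro j
      rw [← hx, Finset.sum_apply]
      refine Finset.sum_congr rfl fun i _ => ?_
      rw [hbA]
      simp
    simpa only [h3] using h2
  set φ : (Fin n → ℝ) → ENNReal := fun z => ENNReal.ofReal (1 - ∑ i, z i ^ 2) with hφ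
  have hmeas : Measurable φ := by
    rw [hφ]; fun_prop
  have hpt : ∀ z : Fin n → ℝ, ∑' g : L, φ (g +ᵥ z) ≤ 1 := by
    intro z
    rw [ENNReal.tsum_eq_iSup_sum]
    apply iSup_le
    intro s
    -- keep only the positive weights
    set s' := s.filter (fun g : L => 0 < 1 - ∑ i, ((g : Fin n → ℝ) i + z i) ^ 2) with hs'
    have h4 : ∑ g ∈ s, φ (g +ᵥ z) = ∑ g ∈ s', φ (g +ᵥ z) := by
      rw [hs', Finset.sum_filter]
      refine Finset.sum_congr rfl fun g _ => ?_
      split_ifs with h
      · rfl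
      · simp only [hφ]
        apply ENNReal.ofReal_of_nonpos
        exact not_lt.1 h
    rw [h4]
    have h5 : ∑ g ∈ s', φ (g +ᵥ z) =
        ENNReal.ofReal (∑ g ∈ s', (1 - ∑ i, ((g : Fin n → ℝ) i + z i) ^ 2)) := by
      rw [ENNReal.ofReal_sum_of_nonneg]
      · rfl
      · intro g hg
        exact (Finset.mem_filter.1 hg).2.le
    rw [h5]
    have hnorm : ∀ v : Fin n → ℝ, ‖(WithLp.toLp 2 v : EuclideanSpace ℝ (Fin n))‖ ^ 2 =
        ∑ i, v i ^ 2 := by
      intro v
      rw [EuclideanSpace.norm_eq, Real.sq_sqrt (Finset.sum_nonneg fun i _ => by positivity)]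
      simp
    have h6 := weight_sum (s'.image (fun g : L =>
      (WithLp.toLp 2 (g : Fin n → ℝ) : EuclideanSpace ℝ (Fin n)))) (WithLp.toLp 2 (-z))
      (by
        intro x hx
        rw [Finset.mem_image] at hx
        obtain ⟨g, hg, rfl⟩ := hx
        have := (Finset.mem_filter.1 hg).2
        rw [← WithLp.toLp_sub, hnorm]
        simpa using this)
      (by
        intro x hx x' hx' hne
        rw [Finset.mem_image] at hx hx'
        obtain ⟨g, hg, rfl⟩ := hx
        obtain ⟨g', hg', rfl⟩ := hx'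
        rw [← WithLp.toLp_sub, hnorm]
        have hgg : g - g' ≠ 0 := by
          intro h
          apply hne
          rw [sub_eq_zero] at h
          rw [h]
        have := hLmin (g - g') hgg
        simpa using this)
    have hinj : Set.InjOn (fun g : L =>
        (WithLp.toLp 2 (g : Fin n → ℝ) : EuclideanSpace ℝ (Fin n))) s' := by
      intro g _ g' _ h
      apply Subtype.ext
      exact (WithLp.toLp_injective 2) h
    rw [Finset.sum_image hinj] at h6
    have h7 : ∑ g ∈ s', (1 - ∑ i, ((g : Fin n → ℝ) i + z i) ^ 2) ≤ 1 := by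
      refine le_trans (le_of_eq ?_) h6
      refine Finset.sum_congr rfl fun g _ => ?_
      rw [← WithLp.toLp_sub, hnorm]
      simp
    calc ENNReal.ofReal (∑ g ∈ s', (1 - ∑ i, ((g : Fin n → ℝ) i + z i) ^ 2)) ≤
        ENNReal.ofReal 1 := ENNReal.ofReal_le_ofReal h7
      _ = 1 := ENNReal.ofReal_one
  have : Countable (Submodule.span ℤ (Set.range b)).toAddSubgroup :=
    inferInstanceAs (Countable (Submodule.span ℤ (Set.range b)))
  have hint : ∫⁻ z, φ z ≤ 1 := by
    rw [hfd.lintegral_eq_tsum'' φ, ← lintegral_tsum]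
    · calc ∫⁻ z in ZSpan.fundamentalDomain b, ∑' g : L, φ (g +ᵥ z) ≤
          ∫⁻ _z in ZSpan.fundamentalDomain b, 1 := lintegral_mono fun z => hpt z
        _ = volume (ZSpan.fundamentalDomain b) := by simp
        _ ≤ 1 := hvol
    · intro g
      exact (hmeas.comp (measurable_const_vadd g)).aemeasurable
  have hgt := lintegral_gt hn hn7
  exact absurd hint (not_le.2 hgt)

end Q272.Ic
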