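import Pool.Agent.Q272.Ic.Frame

/-! The extension step. -/

namespace Q272.Ic

open Module Matrix
open scoped MatrixOrder

/-- The unimodular lattice containing the given frame. -/
theorem exists_unimodular {l : ℤ} (hl : 0 < l) {k : ℕ} (v : Fin k → Z8)
    (hv : ∀ i j, v i ⬝ᵥ v j = if i = j then l else 0) :
    ∃ P : Submodule ℤ Z8, (∀ x, l • x ∈ P) ∧ (∀ i, v i ∈ P) ∧
      (∀ x ∈ P, ∀ y ∈ P, l ∣ x ⬝ᵥ y) ∧ dual l P ≤ P := by
  obtain ⟨U, hU1, hU2, hU3⟩ := exists_selfdual hl
  set M : Submodule ℤ Z8 := LinearMap.range (l • (LinearMap.id : Z8 →ₗ[ℤ] Z8)) ⊔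
    Submodule.span ℤ (Set.range v) with hM
  have hMl : ∀ x, l • x ∈ M := fun x => Submodule.mem_sup_left ⟨x, rfl⟩
  have hMv : ∀ i, v i ∈ M := fun i => Submodule.mem_sup_right (Submodule.subset_span ⟨i, rfl⟩)
  have hMle : ∀ Y : Submodule ℤ Z8, (∀ x, l • x ∈ Y) → (∀ i, v i ∈ Y) → M ≤ Y := by
    intro Y h1 h2
    rw [hM]
    apply sup_le
    · rintro _ ⟨x, rfl⟩
      exact h1 x
    · rw [Submodule.span_le]
      rintro _ ⟨i, rfl⟩
      exact h2 i
  have hMM : M ≤ dual l M := by
    apply hMle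
    · exact fun x => smul_mem_dual M x
    · intro i y hy
      -- show via symmetric argument
      have h3 : M ≤ dual l (Submodule.span ℤ {v i}) := by
        apply hMle
        · exact fun x => smul_mem_dual _ x
        · intro j z hz
          obtain ⟨c, rfl⟩ := Submodule.mem_span_singleton.1 hz
          rw [dotProduct_smul, hv, smul_eq_mul]
          split_ifs
          · exact Dvd.intro_left c rfl
          · simp
      have h4 := h3 hy (v i) (Submodule.mem_span_singleton_self _)
      rw [dotProduct_comm]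
      exact h4
  have hDl : ∀ x, l • x ∈ dual l M := fun x => smul_mem_dual M x
  refine ⟨M ⊔ (U ⊓ dual l M), fun x => Submodule.mem_sup_left (hMl x),
    fun i => Submodule.mem_sup_left (hMv i), ?_, ?_⟩
  · intro x hx y hy
    obtain ⟨m1, hm1, u1, hu1, rfl⟩ := Submodule.mem_sup.1 hx
    obtain ⟨m2, hm2, u2, hu2, rfl⟩ := Submodule.mem_sup.1 hy
    rw [add_dotProduct, dotProduct_add, dotProduct_add]
    refine dvd_add (dvd_add ?_ ?_) (dvd_add ?_ ?_)
    · exact hMM hm1 m2 hm2
    · rw [dotProduct_comm]; exact hu2.2 m1 hm1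
    · exact hu1.2 m2 hm2
    · exact hU2 hu1.1 u2 hu2.1
  · intro m hm
    have h5 : m ∈ dual l M := dual_anti le_sup_left hm
    have h6 : m ∈ dual l (U ⊓ dual l M) := dual_anti le_sup_right hm
    have h7 := dual_inf hl hU1 hDl h6
    obtain ⟨u, hu, w, hw, huw⟩ := Submodule.mem_sup.1 h7
    have hu' : u ∈ U := hU3 hu
    have hw' : w ∈ M := dual_dual hl hMl hw
    have hu'' : u ∈ dual l M := by
      have : u = m - w := by rw [← huw]; abel
      rw [this]
      exact Submodule.sub_mem _ h5 (hMM hw')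
    rw [← huw]
    exact Submodule.add_mem _ (Submodule.mem_sup_right ⟨hu', hu''⟩) (Submodule.mem_sup_left hw')

theorem dot_self_pos {x : Z8} (hx : x ≠ 0) : 0 < x ⬝ᵥ x := by
  rw [dotProduct]
  obtain ⟨i, hi⟩ := Function.ne_iff.1 hx
  refine Finset.sum_pos' (fun j _ => mul_self_nonneg _) ⟨i, Finset.mem_univ _, ?_⟩
  exact mul_self_pos.2 hi

/-- One more vector. -/
theorem step {l : ℤ} (hl : 0 < l) {k : ℕ} (hk1 : 1 ≤ k) (hk8 : k < 8) (v : Fin k → Z8)
    (hv : ∀ i j, v i ⬝ᵥ v j = if i = j then l else 0) :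
    ∃ w : Z8, w ⬝ᵥ w = l ∧ ∀ i, w ⬝ᵥ v i = 0 := by
  classical
  obtain ⟨P, hPl, hPv, hPint, hPdual⟩ := exists_unimodular hl v hv
  -- the orthogonal complement inside `P`
  set N : Submodule ℤ Z8 :=
    { carrier := {x | x ∈ P ∧ ∀ i, x ⬝ᵥ v i = 0}
      add_mem' := by
        rintro a b ⟨ha, ha'⟩ ⟨hb, hb'⟩
        exact ⟨Submodule.add_mem _ ha hb, fun i => by rw [add_dotProduct, ha' i, hb' i, add_zero]⟩
      zero_mem' := ⟨Submodule.zero_mem _, fun i => zero_dotProduct _⟩
      smul_mem' := by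
        rintro c a ⟨ha, ha'⟩
        exact ⟨Submodule.smul_mem _ c ha, fun i => by rw [smul_dotProduct, ha' i, smul_zero]⟩ }
    with hN
  have hNmem : ∀ x : Z8, x ∈ N ↔ x ∈ P ∧ ∀ i, x ⬝ᵥ v i = 0 := fun x => Iff.rfl
  -- representation of functionals on `N`
  have hrep : ∀ f : N →ₗ[ℤ] ℤ, ∃ m : N, ∀ y : N, (m : Z8) ⬝ᵥ (y : Z8) = l * f y := by
    intro f
    have hpm : ∀ j : Fin 8, (l • (Pi.single j 1 : Z8) - ∑ i, (v i j) • v i) ∈ N := by
      intro j
      rw [hNmem]
      refine ⟨Submodule.sub_mem _ (hPl _) (Submodule.sum_mem _ fun i _ =>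
        Submodule.smul_mem _ _ (hPv i)), fun i => ?_⟩
      rw [sub_dotProduct, smul_dotProduct, single_one_dotProduct, sum_dotProduct]
      have : ∀ i' ∈ Finset.univ, (v i' j • v i') ⬝ᵥ v i = if i' = i then l * v i j else 0 := by
        intro i' _
        rw [smul_dotProduct, hv, smul_eq_mul]
        split_ifs with h
        · rw [h]; ring
        · ring
      rw [Finset.sum_congr rfl this, Finset.sum_ite_eq' Finset.univ i, if_pos (Finset.mem_univ _),
        smul_eq_mul, sub_self]
    set m : Z8 := fun j => f ⟨_, hpm j⟩ with hm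
    have key : ∀ x : Z8, ∀ cs : Fin k → ℤ, (∀ i, x ⬝ᵥ v i = l * cs i) →
        ∀ hmem : (x - ∑ i, cs i • v i) ∈ N, m ⬝ᵥ x = l * f ⟨_, hmem⟩ := by
      intro x cs hcs hmem
      have h1 : m ⬝ᵥ x = f (∑ j, x j • (⟨_, hpm j⟩ : N)) := by
        rw [map_sum, dotProduct]
        refine Finset.sum_congr rfl fun j _ => ?_
        rw [map_smul, smul_eq_mul, mul_comm]
      have h2 : (∑ j, x j • (⟨_, hpm j⟩ : N)) = l • (⟨_, hmem⟩ : N) := by
        apply Subtype.ext
        rw [Submodule.coe_sum, Submodule.coe_smul]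
        simp only [Submodule.coe_smul]
        have h3 : ∑ j, x j • (l • (Pi.single j 1 : Z8)) = l • x := by
          ext t
          simp only [Finset.sum_apply, Pi.smul_apply, smul_eq_mul, Pi.single_apply]
          simp [mul_comm]
        have h4 : ∑ j, x j • ∑ i, (v i j) • v i = ∑ i, (x ⬝ᵥ v i) • v i := by
          simp only [Finset.smul_sum, smul_smul]
          rw [Finset.sum_comm]
          refine Finset.sum_congr rfl fun i _ => ?_
          rw [dotProduct, Finset.sum_smul]
        simp only [smul_sub]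
        rw [Finset.sum_sub_distrib, h3, h4]
        congr 1
        rw [Finset.smul_sum]
        refine Finset.sum_congr rfl fun i _ => ?_
        rw [hcs i, smul_smul]
      rw [h1, h2, map_smul, smul_eq_mul]
    have hmP : m ∈ P := by
      apply hPdual
      intro x hx
      have hdv : ∀ i, l ∣ x ⬝ᵥ v i := fun i => hPint x hx (v i) (hPv i)
      choose cs hcs using hdv
      have hmem : (x - ∑ i, cs i • v i) ∈ N := by
        rw [hNmem]
        refine ⟨Submodule.sub_mem _ hx (Submodule.sum_mem _ fun i _ =>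
          Submodule.smul_mem _ _ (hPv i)), fun i => ?_⟩
        rw [sub_dotProduct, sum_dotProduct]
        have : ∀ i' ∈ Finset.univ, (cs i' • v i') ⬝ᵥ v i = if i' = i then l * cs i else 0 := by
          intro i' _
          rw [smul_dotProduct, hv, smul_eq_mul]
          split_ifs with h
          · rw [h]; ring
          · ring
        rw [Finset.sum_congr rfl this, Finset.sum_ite_eq' Finset.univ i,
          if_pos (Finset.mem_univ _), hcs i, sub_self]
      rw [key x cs hcs hmem]
      exact dvd_mul_right _ _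
    have hmN : m ∈ N := by
      rw [hNmem]
      refine ⟨hmP, fun i => ?_⟩
      have hz : (v i - ∑ i', (if i' = i then (1:ℤ) else 0) • v i') = 0 := by
        rw [sub_eq_zero]
        rw [Finset.sum_eq_single i]
        · rw [if_pos rfl, one_smul]
        · intro b _ hb
          rw [if_neg hb, zero_smul]
        · intro h; exact absurd (Finset.mem_univ _) h
      have hmem0 : (v i - ∑ i', (fun i' => if i' = i then (1:ℤ) else 0) i' • v i') ∈ N := by
        simp only
        rw [hz]; exact Submodule.zero_mem _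
      have h6 := key (v i) (fun i' => if i' = i then (1:ℤ) else 0) (fun i' => by
        rw [hv]
        by_cases h : i = i'
        · subst h; simp
        · rw [if_neg h, if_neg (fun h' => h h'.symm)]; ring) hmem0
      have h7 : (⟨_, hmem0⟩ : N) = 0 := by
        apply Subtype.ext
        exact hz
      rw [h6, h7, map_zero, mul_zero]
    refine ⟨⟨m, hmN⟩, fun y => ?_⟩
    have hy := y.2
    rw [hNmem] at hy
    have h5 := key (y : Z8) (fun _ => 0) (fun i => by rw [hy.2 i]; ring)
      (by simp only [zero_smul, Finset.sum_const_zero, sub_zero]; exact y.2)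
    simp only
    rw [h5]
    congr 2
    apply Subtype.ext
    simp
  -- a basis of `N`
  set r := Module.finrank ℤ N with hr
  set e : Basis (Fin r) ℤ N := Module.finBasis ℤ N with he
  have hdvd : ∀ i j, l ∣ (e i : Z8) ⬝ᵥ (e j : Z8) := fun i j =>
    hPint _ ((hNmem _).1 (e i).2).1 _ ((hNmem _).1 (e j).2).1
  choose G hG using hdvd
  choose mm hmm using fun i => hrep (e.coord i)
  set H : Matrix (Fin r) (Fin r) ℤ := fun i j => e.repr (mm i) j with hH
  have hmexp : ∀ i, (mm i : Z8) = ∑ j, H i j • (e j : Z8) := by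
    intro i
    have h1 : (mm i : Z8) = ((∑ j, e.repr (mm i) j • e j : N) : Z8) := by rw [e.sum_repr]
    rw [h1, Submodule.coe_sum]
    rfl
  have hHG : H * (Matrix.of G) = 1 := by
    ext i j
    have h1 := hmm i (e j)
    rw [hmexp i, sum_dotProduct] at h1
    have h2 : ∀ t ∈ Finset.univ, (H i t • (e t : Z8)) ⬝ᵥ (e j : Z8) = l * (H i t * G t j) := by
      intro t _
      rw [smul_dotProduct, hG, smul_eq_mul]; ring
    rw [Finset.sum_congr rfl h2, ← Finset.mul_sum] at h1
    have h3 := mul_left_cancel₀ hl.ne' h1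
    rw [Matrix.mul_apply]
    simp only [Matrix.of_apply]
    rw [h3, Basis.coord_apply, Basis.repr_self, Matrix.one_apply, Finsupp.single_apply]
    by_cases hij : i = j
    · rw [if_pos hij, if_pos hij.symm]
    · rw [if_neg hij, if_neg (fun h => hij h.symm)]
  have hdetG : |(Matrix.of G).det| = 1 := by
    have h1 : H.det * (Matrix.of G).det = 1 := by rw [← Matrix.det_mul, hHG, Matrix.det_one]
    exact Int.isUnit_iff_abs_eq.1 (IsUnit.of_mul_eq_one _ (by rw [mul_comm]; exact h1))
  -- the real Gram matrix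
  set GR : Matrix (Fin r) (Fin r) ℝ := (Matrix.of G).map (Int.cast : ℤ → ℝ) with hGR
  have hlR : (0:ℝ) < (l : ℝ) := by exact_mod_cast hl
  have hquad : ∀ x : Fin r → ℝ, (l : ℝ) * (x ⬝ᵥ (GR *ᵥ x)) =
      ∑ t, (∑ i, x i * ((e i : Z8) t : ℝ)) ^ 2 := by
    intro x
    have h1 : ∀ i j, (l : ℝ) * GR i j = ∑ t, ((e i : Z8) t : ℝ) * ((e j : Z8) t : ℝ) := by
      intro i j
      have := hG i j
      rw [dotProduct] at this
      have h2 : ((∑ t, (e i : Z8) t * (e j : Z8) t : ℤ) : ℝ) = ((l * G i j : ℤ) : ℝ) := by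
        rw [this]
      push_cast at h2
      rw [h2]; rfl
    have h3 : (l : ℝ) * (x ⬝ᵥ (GR *ᵥ x)) = ∑ i, ∑ j, x i * x j * ((l : ℝ) * GR i j) := by
      rw [dotProduct, Finset.mul_sum]
      refine Finset.sum_congr rfl fun i _ => ?_
      rw [Matrix.mulVec, dotProduct, Finset.mul_sum, Finset.mul_sum]
      refine Finset.sum_congr rfl fun j _ => ?_
      ring
    rw [h3]
    simp only [h1]
    have h4 : ∀ t, (∑ i, x i * ((e i : Z8) t : ℝ)) ^ 2 =
        ∑ i, ∑ j, x i * x j * (((e i : Z8) t : ℝ) * ((e j : Z8) t : ℝ)) := by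
      intro t
      rw [sq, Finset.sum_mul_sum]
      refine Finset.sum_congr rfl fun i _ => Finset.sum_congr rfl fun j _ => by ring
    simp only [h4, Finset.mul_sum]
    conv_rhs => rw [Finset.sum_comm]
    refine Finset.sum_congr rfl fun i _ => ?_
    conv_rhs => rw [Finset.sum_comm]
  have hpsd : GR.PosSemidef := by
    apply Matrix.PosSemidef.of_dotProduct_mulVec_nonneg
    · ext i j
      rw [Matrix.conjTranspose_apply, star_trivial]
      have h1 := hG i j
      have h2 := hG j i
      rw [dotProduct_comm, h1] at h2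
      have h3 := mul_left_cancel₀ hl.ne' h2
      simp only [hGR, Matrix.map_apply, Matrix.of_apply]
      rw [h3]
    · intro x
      rw [star_trivial]
      have h1 := hquad x
      have h2 : 0 ≤ ∑ t, (∑ i, x i * ((e i : Z8) t : ℝ)) ^ 2 :=
        Finset.sum_nonneg fun t _ => sq_nonneg _
      rw [← h1] at h2
      exact nonneg_of_mul_nonneg_right h2 hlR
  obtain ⟨B, hB⟩ := CStarAlgebra.nonneg_iff_eq_star_mul_self.mp hpsd.nonneg
  rw [Matrix.star_eq_conjTranspose, Matrix.conjTranspose_eq_transpose_of_trivial] at hB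
  have hdetB : |B.det| = 1 := by
    have h1 : GR.det = ((Matrix.of G).det : ℝ) := by
      rw [hGR]
      exact (Int.cast_det (Matrix.of G)).symm
    have h2 : GR.det = B.det ^ 2 := by
      rw [hB, Matrix.det_mul, Matrix.det_transpose]; ring
    have h3 : |GR.det| = 1 := by
      rw [h1, ← Int.cast_abs, hdetG]; norm_num
    rw [h2, abs_pow] at h3
    exact (pow_eq_one_iff_of_nonneg (abs_nonneg _) (by norm_num)).1 h3
  -- the rank bounds
  have hr1 : 1 ≤ r := by
    by_contra hcon
    have hr0 : r = 0 := by omega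
    obtain ⟨t, ht0, ht1, _⟩ := Int.Matrix.exists_ne_zero_int_vec_norm_le
      (Matrix.of fun (i : Fin k) (j : Fin 8) => v i j) (by simpa using hk8) (by rw [Fintype.card_fin]; exact hk1)
    have htv : ∀ i, t ⬝ᵥ v i = 0 := by
      intro i
      have := congrFun ht1 i
      rw [dotProduct_comm]
      exact this
    have hmem : l • t ∈ N := by
      rw [hNmem]
      exact ⟨hPl t, fun i => by rw [smul_dotProduct, htv i, smul_zero]⟩
    have hsum := e.sum_repr ⟨_, hmem⟩
    have hemp : IsEmpty (Fin r) := by rw [hr0]; infer_instance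
    rw [Finset.univ_eq_empty, Finset.sum_empty] at hsum
    have h2 : l • t = 0 := (congrArg Subtype.val hsum).symm
    apply ht0
    ext j
    have h3 := congrFun h2 j
    simp only [Pi.smul_apply, smul_eq_mul, Pi.zero_apply] at h3
    exact (mul_eq_zero.1 h3).resolve_left hl.ne'
  have hr7 : r ≤ 7 := by
    by_contra hcon
    obtain ⟨t, ht0, ht1, _⟩ := Int.Matrix.exists_ne_zero_int_vec_norm_le
      (Matrix.of fun (j : Fin 8) (i : Fin r ⊕ Unit) =>
        Sum.elim (fun i => (e i : Z8) j) (fun _ => v ⟨0, hk1⟩ j) i)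
      (by simp; omega) (by simp)
    have hcomb : ∑ i : Fin r, t (Sum.inl i) • (e i : Z8) + t (Sum.inr ()) • v ⟨0, hk1⟩ = 0 := by
      ext j
      have h1 := congrFun ht1 j
      rw [Matrix.mulVec, dotProduct, Fintype.sum_sum_type] at h1
      simp only [Matrix.of_apply, Sum.elim_inl, Sum.elim_inr, Pi.zero_apply] at h1
      simp only [Pi.add_apply, Finset.sum_apply, Pi.smul_apply, smul_eq_mul, Pi.zero_apply]
      rw [← h1]
      congr 1
      · exact Finset.sum_congr rfl fun i _ => mul_comm _ _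
      · simp [mul_comm]
    have h2 : t (Sum.inr ()) = 0 := by
      have h3 : (∑ i : Fin r, t (Sum.inl i) • (e i : Z8) + t (Sum.inr ()) • v ⟨0, hk1⟩) ⬝ᵥ
          v ⟨0, hk1⟩ = 0 := by rw [hcomb, zero_dotProduct]
      rw [add_dotProduct, sum_dotProduct, smul_dotProduct, hv, if_pos rfl] at h3
      have h4 : ∀ i ∈ Finset.univ, (t (Sum.inl i) • (e i : Z8)) ⬝ᵥ v ⟨0, hk1⟩ = 0 := by
        intro i _
        rw [smul_dotProduct, ((hNmem _).1 (e i).2).2, smul_zero]
      rw [Finset.sum_eq_zero h4, zero_add, smul_eq_mul] at h3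
      exact (mul_eq_zero.1 h3).resolve_right hl.ne'
    rw [h2, zero_smul, add_zero] at hcomb
    have h5 : ∑ i : Fin r, t (Sum.inl i) • e i = 0 := by
      apply Subtype.ext
      rw [Submodule.coe_sum]
      simpa using hcomb
    have h6 := Fintype.linearIndependent_iff.1 e.linearIndependent _ h5
    apply ht0
    funext i
    rcases i with i | i
    · exact h6 i
    · exact h2
  obtain ⟨x, hx0, hx⟩ := short_vector hr1 hr7 Bᵀ
    (by rw [Matrix.det_transpose]; intro h; rw [h, abs_zero] at hdetB; exact zero_ne_one hdetB)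
    (by rw [Matrix.det_transpose]; exact hdetB.le)
  set wN : N := ∑ i, x i • e i with hwN
  set w : Z8 := (wN : Z8) with hw
  have hwt : ∀ t, (w t : ℝ) = ∑ i, (x i : ℝ) * ((e i : Z8) t : ℝ) := by
    intro t
    rw [hw, hwN, Submodule.coe_sum, Finset.sum_apply, Int.cast_sum]
    refine Finset.sum_congr rfl fun i _ => ?_
    rw [Submodule.coe_smul, Pi.smul_apply, smul_eq_mul, Int.cast_mul]
  have hw0 : w ≠ 0 := by
    intro h
    have h1 : wN = 0 := Subtype.ext h
    rw [hwN] at h1
    have h2 := Fintype.linearIndependent_iff.1 e.linearIndependent _ h1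
    exact hx0 (funext h2)
  have hww : ((w ⬝ᵥ w : ℤ) : ℝ) < 2 * l := by
    have h1 := hquad (fun i => (x i : ℝ))
    have h2 : (fun i => (x i : ℝ)) ⬝ᵥ (GR *ᵥ (fun i => (x i : ℝ))) =
        ∑ j, (∑ i, (x i : ℝ) * Bᵀ i j) ^ 2 := by
      rw [hB, ← Matrix.mulVec_mulVec, Matrix.dotProduct_mulVec, Matrix.vecMul_transpose, dotProduct]
      refine Finset.sum_congr rfl fun j _ => ?_
      rw [Matrix.mulVec, dotProduct, ← sq]
      congr 1
      refine Finset.sum_congr rfl fun i _ => ?_
      rw [Matrix.transpose_apply, mul_comm]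
    rw [h2] at h1
    have h3 : ((w ⬝ᵥ w : ℤ) : ℝ) = ∑ t, (∑ i, (x i : ℝ) * ((e i : Z8) t : ℝ)) ^ 2 := by
      rw [dotProduct]
      push_cast
      refine Finset.sum_congr rfl fun t _ => ?_
      rw [hwt]; ring
    rw [h3, ← h1]
    nlinarith
  have hwP := (hNmem w).1 wN.2
  refine ⟨w, ?_, hwP.2⟩
  obtain ⟨q, hq⟩ := hPint w hwP.1 w hwP.1
  have hpos := dot_self_pos hw0
  have hlt : w ⬝ᵥ w < 2 * l := by exact_mod_cast hww
  rw [hq] at hpos hlt ⊢
  have hq1 : 0 < q := by
    by_contra hcon
    rw [not_lt] at hcon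
    nlinarith
  have hq2 : q < 2 := by
    by_contra hcon
    rw [not_lt] at hcon
    nlinarith
  have : q = 1 := by omega
  rw [this, mul_one]

/-- Every icube extends to a full frame. -/
theorem extend {l : ℤ} (hl : 0 < l) {k : ℕ} (hk1 : 1 ≤ k) (hk8 : k ≤ 8) (v : Fin k → Z8)
    (hv : ∀ i j, v i ⬝ᵥ v j = if i = j then l else 0) :
    ∃ w : Fin 8 → Z8, (∀ i j, w i ⬝ᵥ w j = if i = j then l else 0) ∧
      ∀ i : Fin k, w (Fin.castLE hk8 i) = v i := by
  induction hd : 8 - k generalizing k with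
  | zero =>
    have hk : k = 8 := by omega
    subst hk
    exact ⟨v, hv, fun i => rfl⟩
  | succ d ih =>
    have hlt : k < 8 := by omega
    obtain ⟨u, hu1, hu2⟩ := step hl hk1 hlt v hv
    have hv' : ∀ i j : Fin (k + 1), (Fin.snoc v u : Fin (k + 1) → Z8) i ⬝ᵥ
        (Fin.snoc v u : Fin (k + 1) → Z8) j = if i = j then l else 0 := by
      intro i j
      refine Fin.lastCases ?_ (fun i' => ?_) i
      · refine Fin.lastCases ?_ (fun j' => ?_) j
        · rw [Fin.snoc_last, hu1, if_pos rfl]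
        · rw [Fin.snoc_last, Fin.snoc_castSucc, hu2, if_neg (Fin.castSucc_lt_last j').ne']
      · refine Fin.lastCases ?_ (fun j' => ?_) j
        · rw [Fin.snoc_last, Fin.snoc_castSucc, dotProduct_comm, hu2,
            if_neg (Fin.castSucc_lt_last i').ne]
        · rw [Fin.snoc_castSucc, Fin.snoc_castSucc, hv]
          simp only [Fin.castSucc_inj]
    obtain ⟨w, hw1, hw2⟩ := ih (by omega) (by omega) (Fin.snoc v u) hv' (by omega)
    refine ⟨w, hw1, fun i => ?_⟩
    have := hw2 (Fin.castSucc i)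
    rw [Fin.snoc_castSucc] at this
    rw [← this]
    rfl

end Q272.Ic
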